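import Mathlib

/-!
Metric square roots are not unique: the rational line `ℚ` and the rescaled rational line `√2 ℚ`,
both with the usual distance of the real line, are not isometric, but their squares with the
Euclidean product metric are isometric.
-/

namespace Pool.Agent.Results.MP_1231ed_gt.RationalLine

open WithLp

/-- The rational line inside `ℝ`. -/
def A : Set ℝ := {t | ∃ q : ℚ, t = q}

/-- The rational line rescaled by `√2`, inside `ℝ`. -/
def B : Set ℝ := {t | ∃ q : ℚ, t = √2 * q}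

lemma mem_A_of {x y : A} : ((x : ℝ) + y) / √2 ∈ B ∧ ((x : ℝ) - y) / √2 ∈ B := by
  obtain ⟨x, q, hq⟩ := x
  obtain ⟨y, r, hr⟩ := y
  have h2 : (√2 : ℝ) ≠ 0 := by positivity
  have h3 : (√2 : ℝ) * √2 = 2 := Real.mul_self_sqrt (by norm_num)
  constructor
  · refine ⟨(q + r) / 2, ?_⟩
    simp only
    rw [hq, hr, div_eq_iff h2]
    push_cast
    linear_combination (-(q + r : ℝ) / 2) * h3
  · refine ⟨(q - r) / 2, ?_⟩
    simp only
    rw [hq, hr, div_eq_iff h2]
    push_cast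
    linear_combination (-(q - r : ℝ) / 2) * h3

lemma mem_B_of {x y : B} : ((x : ℝ) + y) / √2 ∈ A ∧ ((x : ℝ) - y) / √2 ∈ A := by
  obtain ⟨x, q, hq⟩ := x
  obtain ⟨y, r, hr⟩ := y
  have h2 : (√2 : ℝ) ≠ 0 := by positivity
  constructor
  · refine ⟨q + r, ?_⟩
    simp only
    rw [hq, hr]
    push_cast
    field_simp
  · refine ⟨q - r, ?_⟩
    simp only
    rw [hq, hr]
    push_cast
    field_simp

/-- Rotation by 45 degrees (composed with a reflection) from `A × A` to `B × B`. -/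
noncomputable def rot : WithLp 2 (A × A) ≃ᵢ WithLp 2 (B × B) where
  toFun p := toLp 2 (⟨((p.fst : ℝ) + p.snd) / √2, mem_A_of.1⟩,
    ⟨((p.fst : ℝ) - p.snd) / √2, mem_A_of.2⟩)
  invFun p := toLp 2 (⟨((p.fst : ℝ) + p.snd) / √2, mem_B_of.1⟩,
    ⟨((p.fst : ℝ) - p.snd) / √2, mem_B_of.2⟩)
  left_inv p := by
    have h2 : (√2 : ℝ) ≠ 0 := by positivity
    have h3 : (√2 : ℝ) ^ 2 = 2 := Real.sq_sqrt (by norm_num)
    apply WithLp.ofLp_injective
    apply Prod.ext
    · apply Subtype.ext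
      change (((p.fst : ℝ) + p.snd) / √2 + ((p.fst : ℝ) - p.snd) / √2) / √2 = p.fst
      field_simp
      linear_combination (-(p.fst : ℝ)) * h3
    · apply Subtype.ext
      change (((p.fst : ℝ) + p.snd) / √2 - ((p.fst : ℝ) - p.snd) / √2) / √2 = p.snd
      field_simp
      linear_combination (-(p.snd : ℝ)) * h3
  right_inv p := by
    have h2 : (√2 : ℝ) ≠ 0 := by positivity
    have h3 : (√2 : ℝ) ^ 2 = 2 := Real.sq_sqrt (by norm_num)
    apply WithLp.ofLp_injective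
    apply Prod.ext
    · apply Subtype.ext
      change (((p.fst : ℝ) + p.snd) / √2 + ((p.fst : ℝ) - p.snd) / √2) / √2 = p.fst
      field_simp
      linear_combination (-(p.fst : ℝ)) * h3
    · apply Subtype.ext
      change (((p.fst : ℝ) + p.snd) / √2 - ((p.fst : ℝ) - p.snd) / √2) / √2 = p.snd
      field_simp
      linear_combination (-(p.snd : ℝ)) * h3
  isometry_toFun := by
    have h2 : (√2 : ℝ) ≠ 0 := by positivity
    have h3 : (√2 : ℝ) ^ 2 = 2 := Real.sq_sqrt (by norm_num)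
    apply Isometry.of_dist_eq
    intro p q
    have key : ∀ {X : Set ℝ} (u v : WithLp 2 (X × X)), dist u v =
        √(((u.fst : ℝ) - v.fst) ^ 2 + ((u.snd : ℝ) - v.snd) ^ 2) := by
      intro X u v
      rw [prod_dist_eq_add (by norm_num), Real.sqrt_eq_rpow]
      simp only [ENNReal.toReal_ofNat, Real.rpow_ofNat, Subtype.dist_eq, Real.dist_eq, sq_abs]
    rw [key, key]
    congr 1
    change (((p.fst : ℝ) + p.snd) / √2 - ((q.fst : ℝ) + q.snd) / √2) ^ 2 +
      (((p.fst : ℝ) - p.snd) / √2 - ((q.fst : ℝ) - q.snd) / √2) ^ 2 = _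
    field_simp
    rw [h3]; ring

/-- **Euclidean squares do not determine a metric space.**  There are two metric spaces `A`, `B`
(subspaces of the real line) which are not isometric, while `A × A` and `B × B`, with the Euclidean
product metric, are isometric. -/
theorem result : ∃ A B : Set ℝ,
    (∀ p q : WithLp 2 (A × A), dist p q = √(dist p.fst q.fst ^ 2 + dist p.snd q.snd ^ 2)) ∧
    (∀ p q : WithLp 2 (B × B), dist p q = √(dist p.fst q.fst ^ 2 + dist p.snd q.snd ^ 2)) ∧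
    Nonempty (WithLp 2 (A × A) ≃ᵢ WithLp 2 (B × B)) ∧ IsEmpty (A ≃ᵢ B) := by
  have key : ∀ {X : Set ℝ} (u v : WithLp 2 (X × X)), dist u v =
        √(dist u.fst v.fst ^ 2 + dist u.snd v.snd ^ 2) := by
    intro X u v
    rw [prod_dist_eq_add (by norm_num), Real.sqrt_eq_rpow]
    simp only [ENNReal.toReal_ofNat, Real.rpow_ofNat]
  refine ⟨A, B, key, key, ⟨rot⟩, ⟨fun φ => ?_⟩⟩
  have h0 : (0 : ℝ) ∈ A := ⟨0, by simp⟩
  have h1 : (1 : ℝ) ∈ A := ⟨1, by simp⟩
  have hd := φ.dist_eq ⟨1, h1⟩ ⟨0, h0⟩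
  obtain ⟨q, hq⟩ := (φ ⟨1, h1⟩).2
  obtain ⟨r, hr⟩ := (φ ⟨0, h0⟩).2
  rw [Subtype.dist_eq, Subtype.dist_eq, hq, hr, Real.dist_eq, Real.dist_eq] at hd
  simp only [sub_zero, abs_one] at hd
  have h3 : (√2 : ℝ) ^ 2 = 2 := Real.sq_sqrt (by norm_num)
  have h4 : (√2 * (q : ℝ) - √2 * r) ^ 2 = 1 := by
    rw [← sq_abs, hd]; norm_num
  have h5 : (2 : ℝ) * ((q : ℝ) - r) ^ 2 = 1 := by
    have : (√2 * (q : ℝ) - √2 * r) ^ 2 = √2 ^ 2 * ((q : ℝ) - r) ^ 2 := by ring
    rw [this, h3] at h4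
    exact h4
  have h6 : (2 : ℚ) * (q - r) ^ 2 = 1 := by exact_mod_cast h5
  have h7 : (2 * (q - r)) ^ 2 = (2 : ℚ) := by linear_combination 2 * h6
  have hirr := irrational_sqrt_two
  apply hirr
  refine ⟨|2 * (q - r)|, ?_⟩
  have h8 : ((|2 * (q - r)| : ℚ) : ℝ) ^ 2 = 2 := by
    have : (|2 * (q - r)| : ℚ) ^ 2 = 2 := by rw [sq_abs]; exact h7
    exact_mod_cast this
  rw [← h8, Real.sqrt_sq]
  exact_mod_cast abs_nonneg (2 * (q - r))

end Pool.Agent.Results.MP_1231ed_gt.RationalLine
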